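import Pool.Agent.W622.ETG.Lin

set_option autoImplicit false

/-! Project ELG, part B1S. -/

namespace Pool.Agent.W67.ELG

open Pool.Agent.W622.ETG Module

theorem powersetCard_lt (n : ℕ) (hn : 4 ≤ n) : n < n.choose 2 := by
  rw [Nat.choose_two_right]
  have h1 : n * 3 ≤ n * (n - 1) := Nat.mul_le_mul_left n (by omega)
  have h2 : n + 1 ≤ n * 3 / 2 := by omega
  have h3 : n * 3 / 2 ≤ n * (n - 1) / 2 := Nat.div_le_div_right h1
  omega

section
variable {M : Type} [AddCommGroup M] [Module (ZMod 2) M]

open Classical in
/-- two different subsets with the same sum give a relation -/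
theorem symm_rel (I P P' : Finset M) (hP : P ⊆ I) (hP' : P' ⊆ I) (h : ∑ s ∈ P, s = ∑ s ∈ P', s)
    (hne : P ≠ P') : ∃ J ⊆ I, J.Nonempty ∧ ∑ s ∈ J, s = 0 ∧ J.card ≤ P.card + P'.card := by
  refine ⟨(P \ P') ∪ (P' \ P), ?_, ?_, ?_, ?_⟩
  · exact Finset.union_subset (Finset.sdiff_subset.trans hP) (Finset.sdiff_subset.trans hP')
  · by_contra hcon
    rw [Finset.not_nonempty_iff_eq_empty, Finset.union_eq_empty, Finset.sdiff_eq_empty_iff_subset,
      Finset.sdiff_eq_empty_iff_subset] at hcon
    exact hne (Finset.Subset.antisymm hcon.1 hcon.2)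
  · have hd : Disjoint (P \ P') (P' \ P) := by
      rw [Finset.disjoint_left]
      intro x hx hx'
      rw [Finset.mem_sdiff] at hx hx'
      exact hx.2 hx'.1
    rw [Finset.sum_union hd]
    have h1 := Finset.sum_inter_add_sum_sdiff P P' (fun s => s)
    have h2 := Finset.sum_inter_add_sum_sdiff P' P (fun s => s)
    rw [Finset.inter_comm] at h2
    have h3 : ∑ s ∈ P \ P', s = ∑ s ∈ P' \ P, s := by
      have h4 : ∑ s ∈ P ∩ P', s + ∑ s ∈ P \ P', s = ∑ s ∈ P ∩ P', s + ∑ s ∈ P' \ P, s := by
        rw [h1, h2, h]
      exact add_left_cancel h4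
    rw [h3]
    have : (2 : ZMod 2) • (∑ s ∈ P' \ P, s) = 0 := by
      rw [show (2 : ZMod 2) = 0 from rfl, zero_smul]
    rwa [two_smul] at this
  · exact (Finset.card_union_le _ _).trans
      (add_le_add (Finset.card_le_card Finset.sdiff_subset)
        (Finset.card_le_card Finset.sdiff_subset))

end

open Classical in
theorem t_B1S (hBDIS : S_BDIS) (hOM : S_OM) (_hCB1 : S_CB1) (hB1P : S_B1P) (hB1R : S_B1R) :
    S_B1S := by
  intro V _ _ _ e A F hCB hF hdim hsup
  have hfinD : Finite (Dl V) :=
    Finite.of_injective (fun f : Dl V => (f : V → ZMod 2)) DFunLike.coe_injective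
  set n := finrank (ZMod 2) V with hn
  have hn4 : 4 ≤ n := hCB.four
  -- good blocks are spanned by elements `s` with `s e = 1`
  have hgood : ∀ X ∈ GB e A, ∃ s : Dl V, s ≠ 0 ∧ X = Submodule.span (ZMod 2) {s} := by
    intro X hX
    have hne : X ≠ F := by
      intro h
      rw [h] at hX
      exact hF.2 hX.2
    have hd : Disjoint X F := hBDIS V e A X F hCB.mc hX hF.1 hne
    have h1 : finrank (ZMod 2) X + finrank (ZMod 2) F ≤ n := by
      rw [← Submodule.finrank_sup_add_finrank_inf_eq, hd.eq_bot, finrank_bot, add_zero, hn,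
        ← finrank_Dl]
      exact Submodule.finrank_le _
    have hloc : LocBlock e A X := by
      rcases hX.1 with h | h
      · exact absurd h.1 (hCB.nc X)
      · exact h
    obtain ⟨-, -, -, -, h5, h6⟩ := hOM V e A X hCB.mc.ef hloc
    obtain ⟨-, s, hs, hXs, -⟩ := h6 (by omega)
    refine ⟨s, ?_, hXs⟩
    intro h0
    rw [h0] at hs
    exact zero_ne_one hs
  -- all of them
  set I : Finset (Dl V) := (Set.toFinite {s : Dl V | s ≠ 0 ∧
    Submodule.span (ZMod 2) {s} ∈ GB e A}).toFinset with hI
  have hmemI : ∀ s, s ∈ I ↔ s ≠ 0 ∧ Submodule.span (ZMod 2) {s} ∈ GB e A := by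
    intro s
    rw [hI, Set.Finite.mem_toFinset]
    rfl
  have hspan : Submodule.span (ZMod 2) (I : Set (Dl V)) = ⊤ := by
    rw [eq_top_iff, ← hsup]
    refine sSup_le ?_
    intro X hX
    obtain ⟨s, hs0, hXs⟩ := hgood X hX
    rw [hXs, Submodule.span_singleton_le_iff_mem]
    exact Submodule.subset_span (Finset.mem_coe.2 ((hmemI s).2 ⟨hs0, hXs ▸ hX⟩))
  have hR : ∀ J ⊆ I, J.Nonempty → ∑ s ∈ J, s = 0 → n + 1 ≤ J.card ∧
      (J.card = n + 1 → ∑ s ∈ J, sqf s = om e A F) := fun J hJ hne hs =>
    hB1R V e A F hCB hF hdim hsup J (fun s hs => (hmemI s).1 (hJ hs)) hne hs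
  have hsmall : ∀ P ⊆ I, ∀ P' ⊆ I, P.card = 2 → P'.card = 2 → ∑ s ∈ P, s = ∑ s ∈ P', s →
      P = P' := by
    intro P hP P' hP' hc hc' h
    by_contra hne
    obtain ⟨J, hJ, hJne, hJs, hJc⟩ := symm_rel I P P' hP hP' h hne
    have := (hR J hJ hJne hJs).1
    omega
  -- the elements `a`
  have hcount : ∀ P ⊆ I, P.card = 2 → ∃ a : V, (∀ s ∈ P, s a = 0) ∧
      om e A F a = ∑ s ∈ P, s ∧ (I.filter fun s => s a = 0).card + 1 = n := by
    intro P hP hc
    obtain ⟨s₁, s₂, h12, rfl⟩ := Finset.card_eq_two.1 hc
    have hm1 := (hmemI s₁).1 (hP (by simp))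
    have hm2 := (hmemI s₂).1 (hP (by simp))
    obtain ⟨a, -, h1, h2, h3, h4, h5⟩ := hB1P V e A F s₁ s₂ hCB hF hdim hm1.1 hm2.1 h12 hm1.2 hm2.2
    refine ⟨a, ?_, ?_, ?_⟩
    · intro s hs
      rw [Finset.mem_insert, Finset.mem_singleton] at hs
      rcases hs with rfl | rfl
      · exact h1
      · exact h2
    · rw [h3, Finset.sum_pair h12]
    · have himg : BL e A a = (fun s : Dl V => Submodule.span (ZMod 2) {s}) ''
          ((I.filter fun s => s a = 0 : Finset (Dl V)) : Set (Dl V)) := by
        ext X
        constructor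
        · intro hX
          obtain ⟨hg, -⟩ := h5 X hX
          have hXG : X ∈ GB e A := ⟨hX.1, hg⟩
          obtain ⟨s, hs0, hXs⟩ := hgood X hXG
          refine ⟨s, ?_, hXs.symm⟩
          rw [Finset.mem_coe, Finset.mem_filter]
          refine ⟨(hmemI s).2 ⟨hs0, hXs ▸ hXG⟩, ?_⟩
          have hle := hX.2
          rw [hXs, Submodule.span_singleton_le_iff_mem] at hle
          exact hle
        · rintro ⟨s, hs, rfl⟩
          rw [Finset.mem_coe, Finset.mem_filter] at hs
          refine ⟨((hmemI s).1 hs.1).2.1, ?_⟩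
          rw [Submodule.span_singleton_le_iff_mem]
          exact hs.2
      have hinj : Set.InjOn (fun s : Dl V => Submodule.span (ZMod 2) {s})
          ((I.filter fun s => s a = 0 : Finset (Dl V)) : Set (Dl V)) := by
        intro s hs s' hs' hss
        rw [Finset.mem_coe, Finset.mem_filter] at hs hs'
        have hs0 := ((hmemI s).1 hs.1).1
        have hmem : s ∈ Submodule.span (ZMod 2) {s'} := by
          have : s ∈ Submodule.span (ZMod 2) {s} := Submodule.mem_span_singleton_self s
          have hss' : Submodule.span (ZMod 2) {s} = Submodule.span (ZMod 2) {s'} := hss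
          rwa [hss'] at this
        exact (span_one_mem.1 hmem).resolve_left hs0
      rw [himg, hinj.ncard_image, Set.ncard_coe_finset] at h4
      exact h4
  -- a basis
  obtain ⟨b, hbI, hbspan, hbli⟩ := exists_linearIndependent (ZMod 2) (I : Set (Dl V))
  set B : Finset (Dl V) := (Set.toFinite b).toFinset with hB
  have hBb : (B : Set (Dl V)) = b := by rw [hB, Set.Finite.coe_toFinset]
  have hBI : B ⊆ I := by
    rw [← Finset.coe_subset, hBb]; exact hbI
  have hBspan : Submodule.span (ZMod 2) (B : Set (Dl V)) = ⊤ := by rw [hBb, hbspan, hspan]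
  have hBcard : B.card = n := by
    have hli : LinearIndepOn (ZMod 2) id (B : Set (Dl V)) := by
      rw [hBb]; exact hbli
    have h1 := finrank_span_set_eq_card hli
    rw [hBspan, finrank_top, finrank_Dl] at h1
    simpa using h1.symm
  set σ : Dl V := ∑ s ∈ B, s with hσ
  have hIB : ∀ s ∈ I, s ∈ B ∨ s = σ := by
    intro s hs
    by_cases hsB : s ∈ B
    · exact Or.inl hsB
    · right
      have hmem : s ∈ Submodule.span (ZMod 2) (B : Set (Dl V)) := by rw [hBspan]; trivial
      obtain ⟨f, -, hf⟩ := Submodule.mem_span_finset.1 hmem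
      have hsum : s = ∑ t ∈ B.filter (fun t => f t = 1), t := by
        rw [← hf, Finset.sum_filter]
        refine Finset.sum_congr rfl fun t _ => ?_
        rcases z01 (f t) with h | h
        · rw [h, zero_smul, if_neg (by decide)]
        · rw [h, one_smul, if_pos rfl]
      set J := B.filter (fun t => f t = 1) with hJ
      have hsJ : s ∉ J := fun h => hsB (Finset.mem_of_mem_filter s h)
      have h1 := hR (insert s J) (by
        intro t ht
        rw [Finset.mem_insert] at ht
        rcases ht with rfl | ht
        · exact hs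
        · exact hBI (Finset.mem_of_mem_filter t ht)) ⟨s, Finset.mem_insert_self s J⟩ (by
          rw [Finset.sum_insert hsJ, ← hsum, vadd])
      rw [Finset.card_insert_of_notMem hsJ] at h1
      have h2 : J = B := by
        apply Finset.eq_of_subset_of_card_le (Finset.filter_subset _ _)
        show B.card ≤ J.card
        rw [hBcard]
        have := h1.1
        omega
      rw [hsum, h2]
  -- complement counting
  have hcompl : ∀ a : V, (I.filter fun s => s a = 0).card + (I.filter fun s => s a = 1).card =
      I.card := by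
    intro a
    rw [← Finset.card_filter_add_card_filter_not (s := I) (p := fun s => s a = 0)]
    congr 2
    refine Finset.filter_congr fun s _ => ?_
    constructor
    · intro h h0
      rw [h0] at h
      exact zero_ne_one h
    · intro h
      exact z_ne h
  by_cases hσI : σ ∈ I ∧ σ ∉ B
  · -- `n + 1` good blocks
    have hIeq : I = insert σ B := by
      ext s
      rw [Finset.mem_insert]
      constructor
      · intro hs
        rcases hIB s hs with h | h
        · exact Or.inr h
        · exact Or.inl h
      · rintro (rfl | h)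
        · exact hσI.1
        · exact hBI h
    have hIcard : I.card = n + 1 := by
      rw [hIeq, Finset.card_insert_of_notMem hσI.2, hBcard]
    have hIsum : ∑ s ∈ I, s = 0 := by
      rw [hIeq, Finset.sum_insert hσI.2, ← hσ, vadd]
    have hom := (hR I (Finset.Subset.refl I) ⟨σ, hσI.1⟩ hIsum).2 hIcard
    obtain ⟨P, hPI, hPc⟩ := Finset.exists_subset_card_eq (s := I) (n := 2) (by omega)
    obtain ⟨a, h1, h2, h3⟩ := hcount P hPI hPc
    have h4 := hcompl a
    have h5 : (I.filter fun s => s a = 1).card = 2 := by omega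
    have h6 : om e A F a = ∑ s ∈ I.filter (fun s => s a = 1), s := by
      rw [← hom, LinearMap.sum_apply, Finset.sum_filter]
      refine Finset.sum_congr rfl fun s _ => ?_
      rw [sqf_apply]
      rcases z01 (s a) with h | h
      · rw [h, zero_smul, if_neg (by decide)]
      · rw [h, one_smul, if_pos rfl]
    have h7 := hsmall P hPI _ (Finset.filter_subset _ _) hPc h5 (h2.symm.trans h6)
    obtain ⟨s, hs⟩ : P.Nonempty := Finset.card_pos.1 (by omega)
    have h8 := h1 s hs
    rw [h7, Finset.mem_filter] at hs
    rw [hs.2] at h8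
    exact one_ne_zero h8
  · -- `n` good blocks
    have hIeq : I = B := by
      ext s
      constructor
      · intro hs
        rcases hIB s hs with h | h
        · exact h
        · by_contra hsB
          rw [h] at hs hsB
          exact hσI ⟨hs, hsB⟩
      · intro h
        exact hBI h
    have hIcard : I.card = n := by rw [hIeq, hBcard]
    choose! a ha1 ha2 ha3 using hcount
    have hK : ∀ P ∈ I.powersetCard 2, (I.filter fun s => s (a P) = 1) ∈ I.powersetCard 1 := by
      intro P hP
      rw [Finset.mem_powersetCard] at hP ⊢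
      refine ⟨Finset.filter_subset _ _, ?_⟩
      have h1 := ha3 P hP.1 hP.2
      have h2 := hcompl (a P)
      omega
    have hcard : (I.powersetCard 1).card < (I.powersetCard 2).card := by
      rw [Finset.card_powersetCard, Finset.card_powersetCard, hIcard, Nat.choose_one_right]
      exact powersetCard_lt n hn4
    obtain ⟨P, hP, P', hP', hne, hPP⟩ :=
      Finset.exists_ne_map_eq_of_card_lt_of_maps_to hcard hK
    rw [Finset.mem_powersetCard] at hP hP'
    have hval : ∀ s ∈ I, s (a P) = s (a P') := by
      intro s hs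
      have h1 : s (a P) = 1 ↔ s (a P') = 1 := by
        have h2 := Finset.ext_iff.1 hPP s
        simp only [Finset.mem_filter, hs, true_and] at h2
        exact h2
      rcases z01 (s (a P)) with h | h
      · rcases z01 (s (a P')) with h' | h'
        · rw [h, h']
        · rw [h1.2 h'] at h
          exact absurd h one_ne_zero
      · rw [h, h1.1 h]
    have haa : a P = a P' := by
      have h1 : a P - a P' = 0 := by
        rw [← Module.forall_dual_apply_eq_zero_iff (ZMod 2)]
        intro f
        have hf : f ∈ Submodule.span (ZMod 2) (I : Set (Dl V)) := by rw [hspan]; trivial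
        induction hf using Submodule.span_induction with
        | mem s hs => rw [map_sub, hval s hs, sub_self]
        | zero => rfl
        | add x y _ _ hx hy => rw [LinearMap.add_apply, hx, hy, add_zero]
        | smul c x _ hx => rw [LinearMap.smul_apply, hx, smul_zero]
      exact sub_eq_zero.1 h1
    apply hne
    apply hsmall P hP.1 P' hP'.1 hP.2 hP'.2
    rw [← ha2 P hP.1 hP.2, ← ha2 P' hP'.1 hP'.2, haa]

end Pool.Agent.W67.ELG
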